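import Pool.Agent.Lib.MP_ba0fa5_ag.Iface

/-! Module NALG. -/

set_option autoImplicit false

namespace Pool.Agent.Lib.MP_ba0fa5_ag.H36

open scoped Classical

theorem nalg : NalgStmt := by
  refine ⟨?_, ?_, ?_⟩
  · intro n v n' v' hn hv hn' hv' hE
    unfold EE at hE
    have h1 : (n' * v') * (1 + n * v ^ 2) = (n * v) * (1 + n' * v' ^ 2) := by
      have : ((n' * v' : ℤ)) * (1 + n * v ^ 2) = (n * v) * (1 + n' * v' ^ 2) := by linarith
      exact_mod_cast this
    have c1 : (n * v).Coprime (1 + n * v ^ 2) := by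
      have : 1 + n * v ^ 2 = 1 + (n * v) * v := by ring
      rw [this]
      exact (Nat.coprime_add_mul_left_right (n * v) 1 v).2 (Nat.coprime_one_right _)
    have c2 : (n' * v').Coprime (1 + n' * v' ^ 2) := by
      have : 1 + n' * v' ^ 2 = 1 + (n' * v') * v' := by ring
      rw [this]
      exact (Nat.coprime_add_mul_left_right (n' * v') 1 v').2 (Nat.coprime_one_right _)
    have d1 : n * v ∣ n' * v' := c1.dvd_of_dvd_mul_right ⟨1 + n' * v' ^ 2, h1⟩
    have d2 : n' * v' ∣ n * v := c2.dvd_of_dvd_mul_right ⟨1 + n * v ^ 2, h1.symm⟩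
    have e : n * v = n' * v' := Nat.dvd_antisymm d1 d2
    have hpos : 0 < n * v := Nat.mul_pos hn hv
    rw [← e] at h1
    have h2 : 1 + n * v ^ 2 = 1 + n' * v' ^ 2 := Nat.eq_of_mul_eq_mul_left hpos h1
    have h3 : (n * v) * v = (n * v) * v' := by
      have h4 : (n * v) * v = (n' * v') * v' := by nlinarith
      rw [h4, ← e]
    have h4 : v = v' := Nat.eq_of_mul_eq_mul_left hpos h3
    subst h4
    exact ⟨Nat.eq_of_mul_eq_mul_right hv e, rfl⟩
  · intro n v u n' v' u' t hn hv hu hn' hv' hu' ht ht'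
    have p1 : 1 ≤ n * v * u := Nat.mul_pos (Nat.mul_pos hn hv) hu
    have p2 : 1 ≤ n' * v' * u' := Nat.mul_pos (Nat.mul_pos hn' hv') hu'
    have z1 : (t : ℤ) ∣ (n * v * u : ℤ) - 1 := by
      have h : (t : ℤ) ∣ ((hh n v u : ℕ) : ℤ) := Int.natCast_dvd_natCast.2 ht
      unfold hh at h
      rwa [Nat.cast_sub p1, Nat.cast_one, Nat.cast_mul, Nat.cast_mul] at h
    have z2 : (t : ℤ) ∣ (n' * v' * u' : ℤ) - 1 := by
      have h : (t : ℤ) ∣ ((hh n' v' u' : ℕ) : ℤ) := Int.natCast_dvd_natCast.2 ht'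
      unfold hh at h
      rwa [Nat.cast_sub p2, Nat.cast_one, Nat.cast_mul, Nat.cast_mul] at h
    obtain ⟨k, hk⟩ := z1
    obtain ⟨k', hk'⟩ := z2
    refine ⟨?_, ?_⟩
    · have i1 : IsCoprime (t : ℤ) (n * v : ℤ) := ⟨-k, u, by linarith⟩
      have i2 : IsCoprime (t : ℤ) (n' * v' : ℤ) := ⟨-k', u', by linarith⟩
      have i3 := i1.mul_right i2
      have i4 : IsCoprime (t : ℤ) ((n * v * (n' * v') : ℕ) : ℤ) := by
        push_cast
        exact i3
      exact Nat.isCoprime_iff_coprime.1 i4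
    · rintro ⟨j, hj⟩
      refine ⟨n * v * n' * v' * j - n' * v' * k + n * v * k', ?_⟩
      unfold EE
      have e1 : (n * v * u : ℤ) = 1 + t * k := by linarith
      have e2 : (n' * v' * u' : ℤ) = 1 + t * k' := by linarith
      have e3 : (v : ℤ) - v' = t * j - u + u' := by linarith
      rw [e3]
      linear_combination (-(n' * v' : ℤ)) * e1 + (n * v : ℤ) * e2
  · intro n v n' v' Y h1 h2 h3 h4
    have a1 : (n : ℤ) ≤ Y := by exact_mod_cast h1
    have a2 : (v : ℤ) ≤ Y := by exact_mod_cast h2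
    have a3 : (n' : ℤ) ≤ Y := by exact_mod_cast h3
    have a4 : (v' : ℤ) ≤ Y := by exact_mod_cast h4
    have b1 : (0 : ℤ) ≤ n := Int.natCast_nonneg n
    have b2 : (0 : ℤ) ≤ v := Int.natCast_nonneg v
    have b3 : (0 : ℤ) ≤ n' := Int.natCast_nonneg n'
    have b4 : (0 : ℤ) ≤ v' := Int.natCast_nonneg v'
    have bY : (0 : ℤ) ≤ Y := Int.natCast_nonneg Y
    have c1 : (n : ℤ) * v ≤ Y * Y := mul_le_mul a1 a2 b2 bY
    have c2 : (n' : ℤ) * v' ≤ Y * Y := mul_le_mul a3 a4 b4 bY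
    have c3 : 0 ≤ (n : ℤ) * v := mul_nonneg b1 b2
    have c4 : 0 ≤ (n' : ℤ) * v' := mul_nonneg b3 b4
    have c5 : (n : ℤ) * v * (n' * v') ≤ (Y * Y) * (Y * Y) := mul_le_mul c1 c2 c4 (mul_nonneg bY bY)
    have c6 : 0 ≤ (n : ℤ) * v * (n' * v') := mul_nonneg c3 c4
    have d1 : |(n' * v' : ℤ) - n * v| ≤ Y * Y := by
      rw [abs_le]
      constructor <;> linarith
    have d2 : |(v : ℤ) - v'| ≤ Y := by
      rw [abs_le]
      constructor <;> linarith
    have d3 : |(n * v * n' * v' * (v - v') : ℤ)| ≤ ((Y * Y) * (Y * Y)) * Y := by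
      have : (n * v * n' * v' * (v - v') : ℤ) = (n * v * (n' * v')) * (v - v') := by ring
      rw [this, abs_mul, abs_of_nonneg c6]
      exact mul_le_mul c5 d2 (abs_nonneg _) (mul_nonneg (mul_nonneg bY bY) (mul_nonneg bY bY))
    have d4 : (Y : ℤ) * Y ≤ (Y : ℤ) ^ 5 := by
      have : Y * Y ≤ Y ^ 5 := by
        rcases Nat.eq_zero_or_pos Y with h0 | h0
        · rw [h0]
          norm_num
        · have : Y ^ 2 ≤ Y ^ 5 := Nat.pow_le_pow_right h0 (by norm_num)
          rwa [pow_two] at this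
      exact_mod_cast this
    unfold EE
    refine (abs_add_le _ _).trans ?_
    have : ((Y : ℤ) * Y * (Y * Y)) * Y = Y ^ 5 := by ring
    rw [this] at d3
    linarith

end Pool.Agent.Lib.MP_ba0fa5_ag.H36
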