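import Pool.Agent.Lib.MP_ba0fa5_ag.Iface

/-! Module NCOUNTP. -/

set_option autoImplicit false

namespace Pool.Agent.Lib.MP_ba0fa5_ag.H36

open scoped Classical

theorem ncountp : NcountpStmt := by
  intro h h' X Δ hh1 hh2
  set G := h.gcd h' with hG
  have hGpos : 0 < G := Nat.gcd_pos_of_pos_left _ hh1
  obtain ⟨k, hk⟩ : G ∣ h := Nat.gcd_dvd_left h h'
  obtain ⟨M, hM⟩ : G ∣ h' := Nat.gcd_dvd_right h h'
  have hMpos : 0 < M := by
    rcases Nat.eq_zero_or_pos M with h0 | h0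
    · rw [h0, mul_zero] at hM
      omega
    · exact h0
  have hcop : k.Coprime M := by
    have h1 : G * k.gcd M = G * 1 := by
      rw [mul_one, ← Nat.gcd_mul_left, ← hk, ← hM]
    exact Nat.eq_of_mul_eq_mul_left hGpos h1
  set S := (Finset.Icc 1 X ×ˢ Finset.Icc 1 X).filter (fun t : ℕ × ℕ =>
      (t.1 * h : ℤ) - t.2 * h' = Δ ∧ t.1 * h ≤ X) with hS
  -- the quotient by M is injective
  have hinj : Set.InjOn (fun t : ℕ × ℕ => t.1 / M) (S : Set (ℕ × ℕ)) := by
    rintro ⟨x, x'⟩ hx ⟨y, y'⟩ hy hxy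
    have hx1 := (Finset.mem_filter.1 (Finset.mem_coe.1 hx)).2.1
    have hy1 := (Finset.mem_filter.1 (Finset.mem_coe.1 hy)).2.1
    have hxy' : x / M = y / M := hxy
    have e1 : ((x : ℤ) - y) * h = ((x' : ℤ) - y') * h' := by
      have a1 : ((x : ℤ)) * h - x' * h' = Δ := hx1
      have a2 : ((y : ℤ)) * h - y' * h' = Δ := hy1
      linarith
    have e2 : ((x : ℤ) - y) * k = ((x' : ℤ) - y') * M := by
      have hG0 : (G : ℤ) ≠ 0 := by exact_mod_cast hGpos.ne'
      apply mul_left_cancel₀ hG0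
      have a1 : (h : ℤ) = G * k := by exact_mod_cast hk
      have a2 : (h' : ℤ) = G * M := by exact_mod_cast hM
      rw [a1, a2] at e1
      linarith
    have e3 : (M : ℤ) ∣ (x : ℤ) - y := by
      have a1 : (M : ℤ) ∣ ((x : ℤ) - y) * k := ⟨(x' : ℤ) - y', by rw [e2]; ring⟩
      have a2 : IsCoprime (M : ℤ) (k : ℤ) := (Nat.isCoprime_iff_coprime.2 hcop).symm
      exact a2.dvd_of_dvd_mul_right a1
    have e4 : x = y := by
      have a1 : x % M = y % M := by
        have : (y : ℤ) ≡ x [ZMOD M] := (Int.modEq_iff_dvd).2 e3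
        exact ((Int.natCast_modEq_iff).1 this).symm
      rw [← Nat.div_add_mod x M, ← Nat.div_add_mod y M, hxy', a1]
    have e5 : x' = y' := by
      rw [e4, sub_self, zero_mul] at e2
      rcases mul_eq_zero.1 e2.symm with a1 | a1
      · have : (x' : ℤ) = y' := by linarith
        exact_mod_cast this
      · exfalso
        have : M = 0 := by exact_mod_cast a1
        omega
    rw [e4, e5]
  have hmaps : ∀ t ∈ S, t.1 / M ∈ Finset.range (X / h / M + 1) := by
    intro t ht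
    have h1 := (Finset.mem_filter.1 ht).2.2
    have h2 : t.1 ≤ X / h := (Nat.le_div_iff_mul_le hh1).2 h1
    exact Finset.mem_range.2 (Nat.lt_succ_of_le (Nat.div_le_div_right h2))
  have hcard : S.card ≤ X / h / M + 1 := by
    have := Finset.card_le_card_of_injOn (fun t : ℕ × ℕ => t.1 / M) hmaps hinj
    rwa [Finset.card_range] at this
  have hreal : ((X / h / M : ℕ) : ℝ) ≤ (X : ℝ) * G / (h * h') := by
    have h1 : ((X / h / M : ℕ) : ℝ) ≤ ((X / h : ℕ) : ℝ) / M := Nat.cast_div_le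
    have h2 : ((X / h : ℕ) : ℝ) ≤ (X : ℝ) / h := Nat.cast_div_le
    have hM' : (0 : ℝ) < M := by exact_mod_cast hMpos
    have hh' : (0 : ℝ) < h := by exact_mod_cast hh1
    have hG' : (0 : ℝ) < G := by exact_mod_cast hGpos
    have e1 : (h' : ℝ) = G * M := by exact_mod_cast hM
    have h3 : ((X / h : ℕ) : ℝ) / M ≤ (X : ℝ) / h / M := div_le_div_of_nonneg_right h2 hM'.le
    have e2 : (X : ℝ) * G / (h * h') = (X : ℝ) / h / M := by
      rw [e1]
      field_simp
    rw [e2]
    exact h1.trans h3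
  have h4 : (S.card : ℝ) ≤ ((X / h / M + 1 : ℕ) : ℝ) := by exact_mod_cast hcard
  rw [Nat.cast_add, Nat.cast_one] at h4
  linarith

end Pool.Agent.Lib.MP_ba0fa5_ag.H36
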